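import Pool.Agent.H78.STN.Stmts3

/-!
# Row ENJ of the board `sto`: the blocks of the computation together
-/

set_option autoImplicit false

namespace Pool.STN

theorem enj_succ (n s : ℕ) :
    blkb (n + 1) s = ((Nat.beq (s % 3) 0 || simb s 120 s 10) && blkb n (s + 2)) := rfl

theorem enj_spec : ∀ n s : ℕ, blkb n s = true → ∀ i, i < n → (s + 2 * i) % 3 ≠ 0 →
    simb (s + 2 * i) 120 (s + 2 * i) 10 = true := by
  intro n
  induction n with
  | zero =>
    intro s _ i hi
    exact absurd hi (Nat.not_lt_zero i)
  | succ n ih =>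
    intro s h i hi h3
    rw [enj_succ, Bool.and_eq_true, Bool.or_eq_true] at h
    obtain ⟨h1, h2⟩ := h
    rcases Nat.eq_zero_or_pos i with h0 | h0
    · subst h0
      rcases h1 with h1 | h1
      · exact absurd (Nat.eq_of_beq_eq_true h1) (by simpa using h3)
      · simpa using h1
    · obtain ⟨j, rfl⟩ : ∃ j, i = j + 1 := ⟨i - 1, by omega⟩
      have e : s + 2 * (j + 1) = s + 2 + 2 * j := by ring
      rw [e] at h3 ⊢
      exact ih (s + 2) h2 j (by omega) h3

theorem enj_a : blkb 19 6 = true := by decide +kernel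

theorem enj_b : blkb 477 46 = true := by decide +kernel

theorem ENJ_thm : ENJStmt := by
  intro hE m0 hm h2 h3 h5 h44
  have key : ∀ n s i : ℕ, blkb n s = true → i < n → s + 2 * i = m0 → simb m0 120 m0 10 = true := by
    intro n s i hb hi he
    have := enj_spec n s hb i hi (by rw [he]; exact h3)
    rwa [he] at this
  by_cases hq : m0 < 1000
  · by_cases hs : m0 < 44
    · exact key 19 6 ((m0 - 6) / 2) enj_a (by omega) (by omega)
    · exact key 477 46 ((m0 - 46) / 2) enj_b (by omega) (by omega)
  · have h := hE (m0 / 1000 / 20) (by omega) (m0 / 1000 % 20) (by omega) (by omega)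
    have e : 20 * (m0 / 1000 / 20) + m0 / 1000 % 20 = m0 / 1000 := by omega
    rw [e] at h
    exact key 500 (1000 * (m0 / 1000)) (m0 % 1000 / 2) h (by omega) (by omega)

end Pool.STN
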